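import Pool.Agent.Lib.MP_d55432_al.DenseMain
import Pool.Agent.Lib.MP_d55432_al.Homog
import Pool.Agent.Lib.MP_d55432_al.Degrees

/-!
# SIX: images of Lie polynomials on `so₆`. Definitions and statements of the modules

See `Paper.md` in this folder.
-/

namespace Pool.Agent.Lib.MP_d55432_al.SIX

open Matrix LieAlgebra

attribute [local instance 100] LieRing.ofAssociativeRing

/-- The Lie algebra `so₆`: skew symmetric `6 × 6` matrices. -/
abbrev L6 (K : Type*) [Field K] := LieAlgebra.Orthogonal.so (Fin 6) K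

/-- The Lie algebra `sl₄`: traceless `4 × 4` matrices. -/
abbrev L4 (K : Type*) [Field K] := LieAlgebra.SpecialLinear.sl (Fin 4) K

/-- `4 × 4` matrices. -/
abbrev M4 (K : Type*) := Matrix (Fin 4) (Fin 4) K

/-- `6 × 6` matrices. -/
abbrev M6 (K : Type*) := Matrix (Fin 6) (Fin 6) K

section six

variable {A : Type*} [CommRing A]

/-- The Pfaffian of the rows and columns `a, b, c, d`. -/
def pf4 (x : M6 A) (a b c d : Fin 6) : A := x a b * x c d - x a c * x b d + x a d * x b c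

/-- The Pfaffian of a `6 × 6` matrix. -/
def Pf (x : M6 A) : A :=
  x 0 1 * pf4 x 2 3 4 5 - x 0 2 * pf4 x 1 3 4 5 + x 0 3 * pf4 x 1 2 4 5
    - x 0 4 * pf4 x 1 2 3 5 + x 0 5 * pf4 x 1 2 3 4

/-- The Pfaffian adjugate. -/
def sharpM (x : M6 A) : M6 A :=
  !![0, pf4 x 2 3 4 5, -pf4 x 1 3 4 5, pf4 x 1 2 4 5, -pf4 x 1 2 3 5, pf4 x 1 2 3 4;
    -pf4 x 2 3 4 5, 0, pf4 x 0 3 4 5, -pf4 x 0 2 4 5, pf4 x 0 2 3 5, -pf4 x 0 2 3 4;
    pf4 x 1 3 4 5, -pf4 x 0 3 4 5, 0, pf4 x 0 1 4 5, -pf4 x 0 1 3 5, pf4 x 0 1 3 4;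
    -pf4 x 1 2 4 5, pf4 x 0 2 4 5, -pf4 x 0 1 4 5, 0, pf4 x 0 1 2 5, -pf4 x 0 1 2 4;
    pf4 x 1 2 3 5, -pf4 x 0 2 3 5, pf4 x 0 1 3 5, -pf4 x 0 1 2 5, 0, pf4 x 0 1 2 3;
    -pf4 x 1 2 3 4, pf4 x 0 2 3 4, -pf4 x 0 1 3 4, pf4 x 0 1 2 4, -pf4 x 0 1 2 3, 0]

/-- Sum of the squares of the entries above the diagonal. -/
def s1 (x : M6 A) : A :=
  x 0 1 ^ 2 + x 0 2 ^ 2 + x 0 3 ^ 2 + x 0 4 ^ 2 + x 0 5 ^ 2 + x 1 2 ^ 2 + x 1 3 ^ 2 + x 1 4 ^ 2 +
    x 1 5 ^ 2 + x 2 3 ^ 2 + x 2 4 ^ 2 + x 2 5 ^ 2 + x 3 4 ^ 2 + x 3 5 ^ 2 + x 4 5 ^ 2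

/-- Sum of the squares of the `4 × 4` Pfaffians. -/
def s2 (x : M6 A) : A := s1 (sharpM x)

/-- The square of the Pfaffian. -/
def s3 (x : M6 A) : A := Pf x ^ 2

/-- The skew matrix `u vᵀ - v uᵀ`. -/
def wedgeM (u v : Fin 6 → A) : M6 A := vecMulVec u v - vecMulVec v u

theorem sharpM_skew (x : M6 A) : (sharpM x)ᵀ = -sharpM x := by
  ext i j
  fin_cases i <;> fin_cases j <;> simp [sharpM, Matrix.transpose_apply]

theorem wedgeM_skew (u v : Fin 6 → A) : (wedgeM u v)ᵀ = -wedgeM u v := by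
  rw [wedgeM, transpose_sub, transpose_vecMulVec, transpose_vecMulVec, neg_sub]

end six

section field

variable {K : Type*} [Field K]

/-- The Pfaffian adjugate on `so₆`. -/
def sharp (x : L6 K) : L6 K :=
  ⟨sharpM x.1, (LieAlgebra.Orthogonal.mem_so _ _ _).2 (sharpM_skew x.1)⟩

/-- The element `u vᵀ - v uᵀ` of `so₆`. -/
def wedge (u v : Fin 6 → K) : L6 K :=
  ⟨wedgeM u v, (LieAlgebra.Orthogonal.mem_so _ _ _).2 (wedgeM_skew u v)⟩

/-- Matrices in `so₆` of rank at most `2k`. -/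
def Zset (K : Type*) [Field K] (k : ℕ) : Set (L6 K) := {x | x.1.rank ≤ 2 * k}

/-- Traceless part of the square. -/
def sq4 (X : M4 K) : M4 K := X * X - ((X * X).trace / 4) • (1 : M4 K)

/-- The adjugate of a `4 × 4` matrix in terms of its powers and their traces. -/
def adj4 (X : M4 K) : M4 K :=
  -(X * X * X) + X.trace • (X * X) - ((X.trace ^ 2 - (X * X).trace) / 2) • X +
    ((X.trace ^ 3 - 3 * X.trace * (X * X).trace + 2 * (X * X * X).trace) / 6) • (1 : M4 K)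

/-- The linear factor `tr(a adj y) - tr(adj y) a`. -/
def lin4 (a Y : M4 K) : M4 K := (a * Y).trace • (1 : M4 K) - Y.trace • a

/-- The seed map; its values have scalar squares. -/
def w4 (a x : M4 K) : M4 K :=
  sq4 (sq4 (lin4 a (adj4 (a * x - x * a)) * adj4 (a * x - x * a)) +
    sq4 (adj4 (a * x - x * a) * lin4 a (adj4 (a * x - x * a))))

/-- The map with image the set of all traceless matrices with scalar square. -/
def F4 (a x y b : M4 K) : M4 K := (b * b * b).trace • sq4 (w4 a x * y - y * w4 a x)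

theorem trace_sq4 [CharZero K] (X : M4 K) : (sq4 X).trace = 0 := by
  simp only [sq4, trace_sub, trace_smul, trace_one, Fintype.card_fin, smul_eq_mul]
  push_cast
  field_simp
  ring

theorem mem_sl (X : M4 K) : X ∈ LieAlgebra.SpecialLinear.sl (Fin 4) K ↔ X.trace = 0 := by
  rw [LieAlgebra.SpecialLinear.sl]
  exact LinearMap.mem_ker

/-- A traceless matrix as an element of `sl₄`. -/
def mk4 (X : M4 K) (h : X.trace = 0) : L4 K := ⟨X, (mem_sl X).2 h⟩

/-- Traceless part of the square, as a map from `sl₄` to `sl₄`. -/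
def sq4L [CharZero K] (X : L4 K) : L4 K := mk4 (sq4 X.1) (trace_sq4 X.1)

theorem trace_F4 [CharZero K] (a x y b : M4 K) : (F4 a x y b).trace = 0 := by
  rw [F4, trace_smul, trace_sq4, smul_zero]

/-- `F4` on `sl₄`. -/
def F4L [CharZero K] (a x y b : L4 K) : L4 K :=
  mk4 (F4 a.1 x.1 y.1 b.1) (trace_F4 a.1 x.1 y.1 b.1)

end field

end Pool.Agent.Lib.MP_d55432_al.SIX
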