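import Pool.Agent.Lib.MP_d55432_al.SIX.Base

/-!
# SIX: statements of the modules

A module `X` is a file proving `theorem x (K) ... : X_S K` (further modules may be used as
hypotheses). See `Paper.md` for proofs.
-/

namespace Pool.Agent.Lib.MP_d55432_al.SIX

open Matrix LieAlgebra MvPolynomial

attribute [local instance 100] LieRing.ofAssociativeRing

section defs

variable {K : Type*} [Field K]

/-- Conjugation by an invertible matrix on `sl₄`. -/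
def conj4 (g h : M4 K) (hgh : g * h = 1) (hhg : h * g = 1) : L4 K ≃ₗ⁅K⁆ L4 K where
  toFun X := mk4 (g * X.1 * h) (by
    rw [trace_mul_comm, ← Matrix.mul_assoc, hhg, Matrix.one_mul]
    exact (mem_sl _).1 X.2)
  map_add' X Y := by
    apply Subtype.ext
    change g * (X.1 + Y.1) * h = g * X.1 * h + g * Y.1 * h
    rw [Matrix.mul_add, Matrix.add_mul]
  map_smul' c X := by
    apply Subtype.ext
    change g * (c • X.1) * h = c • (g * X.1 * h)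
    rw [Matrix.mul_smul, Matrix.smul_mul]
  map_lie' := by
    intro X Y
    apply Subtype.ext
    change g * (X.1 * Y.1 - Y.1 * X.1) * h =
      (g * X.1 * h) * (g * Y.1 * h) - (g * Y.1 * h) * (g * X.1 * h)
    have h1 : ∀ P Q : M4 K, (g * P * h) * (g * Q * h) = g * (P * Q) * h := by
      intro P Q
      calc (g * P * h) * (g * Q * h) = g * P * (h * g) * Q * h := by
            simp only [Matrix.mul_assoc]
        _ = _ := by rw [hhg, Matrix.mul_one]; simp only [Matrix.mul_assoc]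
    rw [h1, h1, ← Matrix.sub_mul, ← Matrix.mul_sub]
  invFun X := mk4 (h * X.1 * g) (by
    rw [trace_mul_comm, ← Matrix.mul_assoc, hgh, Matrix.one_mul]
    exact (mem_sl _).1 X.2)
  left_inv X := by
    apply Subtype.ext
    change h * (g * X.1 * h) * g = X.1
    calc h * (g * X.1 * h) * g = (h * g) * X.1 * (h * g) := by simp only [Matrix.mul_assoc]
      _ = _ := by rw [hhg, Matrix.one_mul, Matrix.mul_one]
  right_inv X := by
    apply Subtype.ext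
    change g * (h * X.1 * g) * h = X.1
    calc g * (h * X.1 * g) * h = (g * h) * X.1 * (g * h) := by simp only [Matrix.mul_assoc]
      _ = _ := by rw [hgh, Matrix.one_mul, Matrix.mul_one]

theorem conj4_coe (g h : M4 K) (hgh : g * h = 1) (hhg : h * g = 1) (X : L4 K) :
    (conj4 g h hgh hhg X).1 = g * X.1 * h := rfl

/-- The matrix with two diagonal blocks `!![0, c; 1, 0]`. -/
def CC (c : K) : M4 K := !![0, c, 0, 0; 1, 0, 0, 0; 0, 0, 0, c; 0, 0, 1, 0]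

/-- `Θ` is an isomorphism `so₆ → sl₄` under which the square becomes the Pfaffian adjugate. -/
def IsTheta (Θ : L6 K ≃ₗ⁅K⁆ L4 K) (κ : K) : Prop :=
  κ ≠ 0 ∧ ∀ x : L6 K, (Θ x).1 * (Θ x).1 = (-(s1 x.1) / 4) • (1 : M4 K) + κ • (Θ (sharp x)).1

/-- The sign of the index `i` under the reflection number `s`. -/
def sgI (s i : Fin 6) : ℤ := if s = i then -1 else 1

/-- The sign of the variable `t` under the reflection number `s`. -/
def epsI {m : ℕ} (s : Fin 6) (t : Fin m × Fin 6 × Fin 6) : ℤ := sgI s t.2.1 * sgI s t.2.2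

/-- The tuple of elements of `so₆` with given entries above the diagonal. -/
def skv {m : ℕ} (v : Fin m × Fin 6 × Fin 6 → K) (r : Fin m) : L6 K :=
  ⟨Matrix.of fun i j => if i < j then v (r, i, j) else if j < i then -v (r, j, i) else 0,
    (LieAlgebra.Orthogonal.mem_so _ _ _).2 (by
      ext i j
      change (if j < i then v (r, j, i) else if i < j then -v (r, i, j) else 0) =
        -(if i < j then v (r, i, j) else if j < i then -v (r, j, i) else 0)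
      rcases lt_trichotomy i j with h | h | h
      · rw [if_neg (not_lt.2 h.le), if_pos h, if_pos h]
      · subst h; simp
      · rw [if_pos h, if_neg (not_lt.2 h.le), if_pos h, neg_neg])⟩

/-- The discriminant of `T ^ 4 + p T ^ 2 + q T + r` in terms of `p`, `q2 = q ^ 2` and `r`. -/
def disc4 (p q2 r : K) : K :=
  16 * p ^ 4 * r - 4 * p ^ 3 * q2 - 128 * p ^ 2 * r ^ 2 + 144 * p * q2 * r - 27 * q2 ^ 2 +
    256 * r ^ 3

/-- Power sums of `l 0, l 1, l 2, -(l 0 + l 1 + l 2)`. -/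
def ps3 (l : Fin 3 → K) (k : ℕ) : K := l 0 ^ k + l 1 ^ k + l 2 ^ k + (-(l 0 + l 1 + l 2)) ^ k

/-- Power sums of `l 0, - l 0, l 1, - l 1`. -/
def ps2 (l : Fin 2 → K) (k : ℕ) : K := l 0 ^ k + (-l 0) ^ k + l 1 ^ k + (-l 1) ^ k

/-- `S` is a Zariski dense subset of `T`. -/
def IsDenseIn (S T : Set (L6 K)) : Prop :=
  S ⊆ T ∧ ∀ g ∈ PolyOn K (L6 K), (∀ y ∈ S, g y = 0) → ∀ y ∈ T, g y = 0

/-- The matrices `x` in `so₆` of rank at most 2 with `x = 0` or `rank (x ^ 2) ∈ T ∪ {2}`. -/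
def DT (K : Type*) [Field K] (T : Set ℕ) : Set (L6 K) :=
  {x | x.1.rank ≤ 2 ∧ (x = 0 ∨ (x.1 * x.1).rank ∈ T ∪ {2})}

end defs

variable (K : Type*) [Field K]

/-- SIMPLE: `so₆` is simple. -/
def SIMPLE_S : Prop := LieAlgebra.IsSimple K (L6 K)

/-- THETA: the spin isomorphism. -/
def THETA_S : Prop := ∃ (Θ : L6 K ≃ₗ⁅K⁆ L4 K) (κ : K), IsTheta Θ κ

/-- SIG: the invariants of `so₆` in terms of those of `sl₄`. -/
def SIG_S : Prop := ∀ (Θ : L6 K ≃ₗ⁅K⁆ L4 K) (κ : K), IsTheta Θ κ → ∀ x : L6 K,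
  ((Θ x).1 * (Θ x).1).trace = -s1 x.1 ∧
  ((Θ x).1 * (Θ x).1 * (Θ x).1).trace = -3 * κ * Pf x.1 ∧
  ((Θ x).1 * (Θ x).1 * (Θ x).1 * (Θ x).1).trace = s1 x.1 ^ 2 / 4 - κ ^ 2 * s2 x.1

/-- CHA: the adjugate. -/
def CHA_S : Prop := ∀ X : M4 K, adj4 X = X.adjugate

/-- CHB: the characteristic polynomial. -/
def CHB_S : Prop := ∀ X : M4 K, X.trace = 0 → ∀ T : K,
  (T • (1 : M4 K) - X).det = T ^ 4 - (X * X).trace / 2 * T ^ 2 - (X * X * X).trace / 3 * T +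
    ((X * X).trace ^ 2 / 8 - (X * X * X * X).trace / 4)

/-- CHC: the theorem of Cayley and Hamilton. -/
def CHC_S : Prop := ∀ X : M4 K, X.trace = 0 →
  X * X * X * X = ((X * X).trace / 2) • (X * X) + ((X * X * X).trace / 3) • X -
    ((X * X).trace ^ 2 / 8 - (X * X * X * X).trace / 4) • (1 : M4 K)

/-- CORE: the properties of the seed map. -/
def CORE_S : Prop :=
  (∀ X : M4 K, X.trace = 0 → (X * X * X).trace = 0 → ∃ c : K, sq4 X * sq4 X = c • (1 : M4 K)) ∧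
  (∀ a x : M4 K, ∃ c : K, w4 a x * w4 a x = c • (1 : M4 K)) ∧
  (∀ (w y : M4 K) (c : K), w * w = c • (1 : M4 K) → ((w * y - y * w) * (w * y - y * w) *
    (w * y - y * w)).trace = 0) ∧
  (∃ a x : M4 K, a.trace = 0 ∧ x.trace = 0 ∧ w4 a x * w4 a x = (1024 : K) • (1 : M4 K)) ∧
  (∀ a x y b : M4 K, ∃ c : K, F4 a x y b * F4 a x y b = c • (1 : M4 K))

/-- AD: invariants of automorphisms of `sl₄`. -/
def AD_S [CharZero K] : Prop := ∀ φ : L4 K ≃ₗ⁅K⁆ L4 K,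
  (∀ X Y : L4 K, ((φ X).1 * (φ Y).1).trace = (X.1 * Y.1).trace) ∧
  ∃ ε : K, ε * ε = 1 ∧ ∀ X : L4 K, sq4L (φ X) = ε • φ (sq4L X)

/-- PHI: equivariance of the map `F4L`. -/
def PHI_S [CharZero K] : Prop := ∀ (φ : L4 K ≃ₗ⁅K⁆ L4 K) (a x y b : L4 K),
  F4L (φ a) (φ x) (φ y) (φ b) = φ (F4L a x y b)

/-- ORB: traceless matrices with scalar square up to conjugation. -/
def ORB_S : Prop := ∀ (X : M4 K) (c : K), X.trace = 0 → X * X = c • (1 : M4 K) →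
  X = 0 ∨ ∃ g h : M4 K, g * h = 1 ∧ h * g = 1 ∧
    (X = g * CC c * h ∨ (c = 0 ∧ X = g * Matrix.single 0 1 1 * h))

/-- RANGE: the range of `F4L`. -/
def RANGE_S [CharZero K] : Prop := ∀ X : L4 K, (∃ c : K, X.1 * X.1 = c • (1 : M4 K)) ↔
  ∃ a x y b : L4 K, F4L a x y b = X

/-- POLY: the map `F4L` transported to `so₆` is a homogeneous polynomial map. -/
def POLY_S [CharZero K] : Prop := ∀ (Θ : L6 K ≃ₗ⁅K⁆ L4 K),
  IsPolyMap K (fun a : Fin 4 → L6 K =>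
    Θ.symm (F4L (Θ (a 0)) (Θ (a 1)) (Θ (a 2)) (Θ (a 3)))) ∧
  ∀ (t : K) (a : Fin 4 → L6 K), F4L (Θ ((t • a) 0)) (Θ ((t • a) 1)) (Θ ((t • a) 2))
    (Θ ((t • a) 3)) = t ^ 109 • F4L (Θ (a 0)) (Θ (a 1)) (Θ (a 2)) (Θ (a 3))

/-- DARB: skew matrices of small rank. -/
def DARB_S : Prop :=
  (∀ x : L6 K, x.1.rank ≤ 2 ↔ sharp x = 0) ∧ (∀ x : L6 K, x.1.rank ≤ 4 ↔ Pf x.1 = 0) ∧
  (∀ x : L6 K, x.1.rank ≤ 2 ↔ ∃ u v, x = wedge u v) ∧
  (∀ x : L6 K, x.1.rank ≤ 4 ↔ ∃ u v u' v', x = wedge u v + wedge u' v')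

/-- EXIST: the sets of matrices of bounded rank are images. -/
def EXIST_S : Prop := ∀ k ≤ 3, ∃ (m d : ℕ) (p : FreeLieAlgebra K (Fin m)),
  IsHomogeneousLie d p ∧ lieImage (L6 K) p = Zset K k

/-- GEN: the generic value of a Lie polynomial on `so₆`. -/
def GEN_S : Prop := ∀ (m : ℕ) (p : FreeLieAlgebra K (Fin m)),
  ∃ F : M6 (MvPolynomial (Fin m × Fin 6 × Fin 6) K), Fᵀ = -F ∧
    (∀ v : Fin m × Fin 6 × Fin 6 → K,
      (FreeLieAlgebra.lift K (skv v) p : L6 K).1 = F.map (eval v)) ∧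
    ∀ s i j, Degrees.sgnHom K (epsI s) (F i j) = C ((sgI s i * sgI s j : ℤ) : K) * F i j

/-- ALG3: algebraic independence from leading exponents, three polynomials. Here the pattern of
the exponent `μ` is the function `s ↦ sgn (ε s) μ`. -/
def ALG3_S : Prop := ∀ (τ : Type) (mo : MonomialOrder.{0, 0} τ) (ε : Fin 6 → τ → ℤ),
  (∀ s t, ε s t = 1 ∨ ε s t = -1) → ∀ (f : Fin 3 → MvPolynomial τ K) (μ : Fin 3 → τ →₀ ℕ),
  (∀ i, f i ≠ 0) → (∀ i, mo.degree (f i) = 2 • μ i) →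
  (∀ b : Fin 3 → ℕ, (∀ s, ∏ i, Degrees.sgn (ε s) (μ i) ^ b i = 1) → ∀ i, Even (b i)) →
  ∀ Φ : MvPolynomial (Fin 3) K, Φ ≠ 0 → aeval f Φ ≠ 0

/-- PAR3: algebraic independence of the three invariants if the Pfaffian is nonzero. -/
def PAR3_S : Prop := ∀ (τ : Type) [Finite τ] (ε : Fin 6 → τ → ℤ),
  (∀ s t, ε s t = 1 ∨ ε s t = -1) → ∀ F : M6 (MvPolynomial τ K), Fᵀ = -F →
  (∀ s i j, Degrees.sgnHom K (ε s) (F i j) = C ((sgI s i * sgI s j : ℤ) : K) * F i j) →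
  Pf F ≠ 0 → ∀ Φ : MvPolynomial (Fin 3) K, Φ ≠ 0 → aeval ![s1 F, s2 F, s3 F] Φ ≠ 0

/-- PAR2: algebraic independence of two invariants, and nonvanishing of the first one. -/
def PAR2_S : Prop := ∀ (τ : Type) [Finite τ] (ε : Fin 6 → τ → ℤ),
  (∀ s t, ε s t = 1 ∨ ε s t = -1) → ∀ F : M6 (MvPolynomial τ K), Fᵀ = -F →
  (∀ s i j, Degrees.sgnHom K (ε s) (F i j) = C ((sgI s i * sgI s j : ℤ) : K) * F i j) →
  (F ≠ 0 → s1 F ≠ 0) ∧
  (sharpM F ≠ 0 → ∀ Φ : MvPolynomial (Fin 2) K, Φ ≠ 0 → aeval ![s1 F, s2 F] Φ ≠ 0)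

/-- REG3: diagonalisation of regular traceless matrices. -/
def REG3_S : Prop := ∀ X : M4 K, X.trace = 0 →
  disc4 (-(X * X).trace / 2) ((X * X * X).trace ^ 2 / 9)
    ((X * X).trace ^ 2 / 8 - (X * X * X * X).trace / 4) ≠ 0 →
  ∃ (l : Fin 3 → K) (g h : M4 K), g * h = 1 ∧ h * g = 1 ∧
    X = g * Matrix.diagonal ![l 0, l 1, l 2, -(l 0 + l 1 + l 2)] * h

/-- REG2: diagonalisation of regular traceless matrices with `tr X ^ 3 = 0`. -/
def REG2_S : Prop := ∀ X : M4 K, X.trace = 0 → (X * X * X).trace = 0 →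
  ((X * X).trace ^ 2 / 8 - (X * X * X * X).trace / 4) *
    (((X * X).trace / 2) ^ 2 - 4 * ((X * X).trace ^ 2 / 8 - (X * X * X * X).trace / 4)) ≠ 0 →
  ∃ (l : Fin 2 → K) (g h : M4 K), g * h = 1 ∧ h * g = 1 ∧
    X = g * Matrix.diagonal ![l 0, -l 0, l 1, -l 1] * h

/-- NRM3: norms from the torus of `sl₄` to the ring of invariants. -/
def NRM3_S : Prop := ∀ κ : K, κ ≠ 0 → ∀ G : MvPolynomial (Fin 3) K, G ≠ 0 →
  ∃ Φ : MvPolynomial (Fin 3) K, Φ ≠ 0 ∧ ∀ l : Fin 3 → K, eval l G = 0 →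
    eval ![-ps3 l 2, (ps3 l 2 ^ 2 / 4 - ps3 l 4) / κ ^ 2, (ps3 l 3 / (3 * κ)) ^ 2] Φ = 0

/-- NRM2: the same for the torus of elements with `tr X ^ 3 = 0`. -/
def NRM2_S : Prop := ∀ κ : K, κ ≠ 0 → ∀ G : MvPolynomial (Fin 2) K, G ≠ 0 →
  ∃ Φ : MvPolynomial (Fin 2) K, Φ ≠ 0 ∧ ∀ l : Fin 2 → K, eval l G = 0 →
    eval ![-ps2 l 2, (ps2 l 2 ^ 2 / 4 - ps2 l 4) / κ ^ 2] Φ = 0

/-- REL3: an invariant set which is not dense in `so₆` satisfies a relation. -/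
def REL3_S : Prop := ∀ S : Set (L6 K), (∀ φ : L6 K ≃ₗ⁅K⁆ L6 K, ∀ x ∈ S, φ x ∈ S) →
  ∀ g ∈ PolyOn K (L6 K), (∀ x ∈ S, g x = 0) → (∃ y, g y ≠ 0) →
  ∃ Φ : MvPolynomial (Fin 3) K, Φ ≠ 0 ∧ ∀ x ∈ S, eval ![s1 x.1, s2 x.1, s3 x.1] Φ = 0

/-- REL2: an invariant subset which is not dense in the set of matrices of rank at most 4
satisfies a relation. -/
def REL2_S : Prop := ∀ S : Set (L6 K), (∀ φ : L6 K ≃ₗ⁅K⁆ L6 K, ∀ x ∈ S, φ x ∈ S) →
  (∀ x ∈ S, Pf x.1 = 0) →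
  ∀ g ∈ PolyOn K (L6 K), (∀ x ∈ S, g x = 0) →
  (∃ u v u' v', g (wedge u v + wedge u' v') ≠ 0) →
  ∃ Φ : MvPolynomial (Fin 2) K, Φ ≠ 0 ∧ ∀ x ∈ S, eval ![s1 x.1, s2 x.1] Φ = 0

/-- RANK2: the non-nilpotent matrices of rank 2 are dense in the set of matrices `wedge u v`, and
two of them with the same invariant are conjugate. -/
def RANK2_S : Prop :=
  (∀ g ∈ PolyOn K (L6 K), (∀ x : L6 K, sharp x = 0 → s1 x.1 ≠ 0 → g x = 0) →
    ∀ u v, g (wedge u v) = 0) ∧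
  (∀ x y : L6 K, sharp x = 0 → sharp y = 0 → s1 x.1 = s1 y.1 → s1 x.1 ≠ 0 →
    ∃ φ : L6 K ≃ₗ⁅K⁆ L6 K, φ x = y)

/-- CLOS: the Zariski closure of the image of a Lie polynomial; images of non-nilpotent rank 2
contain all non-nilpotent matrices of rank 2. -/
def CLOS_S : Prop := ∀ (m : ℕ) (p : FreeLieAlgebra K (Fin m)),
  (∃ k ≤ 3, IsDenseIn (lieImage (L6 K) p) (Zset K k)) ∧
  (lieImage (L6 K) p ⊆ Zset K 1 → lieImage (L6 K) p = {0} ∨
    ∀ x : L6 K, sharp x = 0 → s1 x.1 ≠ 0 → x ∈ lieImage (L6 K) p)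

/-- NIL: nilpotent matrices of rank 2. -/
def NIL_S : Prop :=
  (∀ x : L6 K, x.1.rank ≤ 2 → x ≠ 0 → (s1 x.1 ≠ 0 ∧ (x.1 * x.1).rank = 2) ∨
    (s1 x.1 = 0 ∧ ((x.1 * x.1).rank = 1 ∨ (x.1 * x.1).rank = 0))) ∧
  (∀ x y : L6 K, x.1.rank ≤ 2 → y.1.rank ≤ 2 → x ≠ 0 → y ≠ 0 → s1 x.1 = 0 → s1 y.1 = 0 →
    (x.1 * x.1).rank = (y.1 * y.1).rank → ∃ φ : L6 K ≃ₗ⁅K⁆ L6 K, φ x = y) ∧
  (∀ (φ : L6 K ≃ₗ⁅K⁆ L6 K) (x : L6 K), x.1.rank ≤ 2 → (φ x).1.rank ≤ 2 ∧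
    ((φ x).1 * (φ x).1).rank = (x.1 * x.1).rank)

/-- LIST: the homogeneous images contained in the set of matrices of rank at most 2. -/
def LIST_S : Prop := ∀ T ⊆ ({0, 1} : Set ℕ), ∃ (m d : ℕ) (p : FreeLieAlgebra K (Fin m)),
  IsHomogeneousLie d p ∧ DT K T = lieImage (L6 K) p

end Pool.Agent.Lib.MP_d55432_al.SIX
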